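import Pool.Agent.Helper74.Rsd.Nm

/-! A Fréchet smooth norm is `C¹` off the origin. -/

set_option autoImplicit false

open scoped Topology ZeroAtInfty
open Filter Set

namespace Pool.Agent.Helper74.Cons

open Pool.Agent.Helper74.Rsd

namespace COne

variable {X : Type*} [NormedAddCommGroup X] [NormedSpace ℝ X]

theorem deriv_self {q : X → ℝ} {a b : ℝ} (hq : IsEqNorm q a b) {x : X}
    (h : DifferentiableAt ℝ q x) : fderiv ℝ q x x = q x := by
  have h1 : HasDerivAt (fun t : ℝ => q (x + t • x)) (fderiv ℝ q x x) 0 := by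
    have h2 : HasDerivAt (fun t : ℝ => x + t • x) x 0 := by
      simpa using (((hasDerivAt_id (0 : ℝ)).smul_const x).const_add x)
    have h3 : HasFDerivAt q (fderiv ℝ q x) (x + (0 : ℝ) • x) := by
      simpa using h.hasFDerivAt
    exact h3.comp_hasDerivAt 0 h2
  have h4 : HasDerivAt (fun t : ℝ => (1 + t) * q x) (q x) 0 := by
    simpa using (((hasDerivAt_id (0 : ℝ)).const_add 1).mul_const (q x))
  have h5 : (fun t : ℝ => q (x + t • x)) =ᶠ[𝓝 0] fun t : ℝ => (1 + t) * q x := by
    have h6 : ∀ᶠ t : ℝ in 𝓝 0, -1 < t := eventually_gt_nhds (by norm_num)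
    filter_upwards [h6] with t ht
    have h7 : x + t • x = (1 + t) • x := by rw [add_smul, one_smul]
    rw [h7, hq.smul, abs_of_pos (by linarith)]
  exact (h1.congr_of_eventuallyEq h5.symm).unique h4

theorem deriv_le {q : X → ℝ} {a b : ℝ} (hq : IsEqNorm q a b) {x : X}
    (h : DifferentiableAt ℝ q x) (y : X) : fderiv ℝ q x y ≤ q y := by
  have h1 : HasDerivAt (fun t : ℝ => q (x + t • y)) (fderiv ℝ q x y) 0 := by
    have h2 : HasDerivAt (fun t : ℝ => x + t • y) y 0 := by
      simpa using (((hasDerivAt_id (0 : ℝ)).smul_const y).const_add x)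
    have h3 : HasFDerivAt q (fderiv ℝ q x) (x + (0 : ℝ) • y) := by
      simpa using h.hasFDerivAt
    exact h3.comp_hasDerivAt 0 h2
  have h2 := h1.tendsto_slope_zero_right
  refine le_of_tendsto h2 ?_
  filter_upwards [self_mem_nhdsWithin] with t ht
  have ht0 : 0 < t := ht
  have h3 := hq.add x (t • y)
  rw [hq.smul, abs_of_pos ht0] at h3
  simp only [zero_add, zero_smul, add_zero, smul_eq_mul]
  rw [inv_mul_le_iff₀ ht0]
  linarith

theorem norm_deriv_le {q : X → ℝ} {a b : ℝ} (hq : IsEqNorm q a b) {x : X}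
    (h : DifferentiableAt ℝ q x) : ‖fderiv ℝ q x‖ ≤ b := by
  refine ContinuousLinearMap.opNorm_le_bound _ hq.b_pos.le fun y => ?_
  rw [Real.norm_eq_abs, abs_le]
  have h1 := deriv_le hq h y
  have h2 := deriv_le hq h (-y)
  rw [map_neg] at h2
  have h3 := hq.upper y
  have h4 := hq.upper (-y)
  rw [norm_neg] at h4
  constructor <;> linarith

/-- the gradient of a convex function is monotone: subgradient inequality -/
theorem sub_le {q : X → ℝ} {a b : ℝ} (hq : IsEqNorm q a b) {x : X}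
    (h : DifferentiableAt ℝ q x) (z : X) : q x + fderiv ℝ q x (z - x) ≤ q z := by
  have h1 := deriv_le hq h z
  rw [map_sub, deriv_self hq h]
  linarith

end COne

theorem contDiffOn_norm {X : Type*} [NormedAddCommGroup X] [NormedSpace ℝ X] (q : Nm X)
    (h : ∀ x, x ≠ 0 → DifferentiableAt ℝ q.1 x) : ContDiffOn ℝ 1 q.1 {x | x ≠ 0} := by
  obtain ⟨q, a, b, hq⟩ := q
  change ∀ x, x ≠ 0 → DifferentiableAt ℝ q x at h
  change ContDiffOn ℝ 1 q {x | x ≠ 0}
  have ho : IsOpen {x : X | x ≠ 0} := isOpen_ne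
  have h01 : (1 : WithTop ℕ∞) = 0 + 1 := by simp
  rw [h01, contDiffOn_succ_iff_fderiv_of_isOpen ho]
  refine ⟨fun x hx => (h x hx).differentiableWithinAt, fun h' => by simp at h', ?_⟩
  rw [contDiffOn_zero]
  intro x hx
  refine ContinuousAt.continuousWithinAt ?_
  rw [Metric.continuousAt_iff]
  intro ε hε
  -- differentiability at `x`
  have h1 : ∀ᶠ z in 𝓝 x, ‖q z - q x - fderiv ℝ q x (z - x)‖ ≤ ε / 4 * ‖z - x‖ :=
    (h x hx).hasFDerivAt.isLittleO.def (by positivity)
  obtain ⟨r, hr, h2⟩ := Metric.eventually_nhds_iff.mp h1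
  obtain ⟨s, hs, hsx⟩ : ∃ s > 0, ∀ z, dist z x < s → z ≠ 0 := by
    obtain ⟨s, hs, h3⟩ := Metric.isOpen_iff.mp ho x hx
    exact ⟨s, hs, fun z hz => h3 hz⟩
  have hb := hq.b_pos
  set t : ℝ := r / 2 with htd
  have ht : 0 < t := by positivity
  refine ⟨min s (ε * t / (8 * b)), lt_min hs (by positivity), fun {x'} hx' => ?_⟩
  have hx's : dist x' x < s := lt_of_lt_of_le hx' (min_le_left _ _)
  have hx'd : dist x' x < ε * t / (8 * b) := lt_of_lt_of_le hx' (min_le_right _ _)
  have hd' := h x' (hsx x' hx's)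
  have hnx : ‖x' - x‖ < ε * t / (8 * b) := by rwa [dist_eq_norm] at hx'd
  have hnx' : 2 * b * ‖x' - x‖ ≤ ε * t / 4 := by
    rw [lt_div_iff₀ (by positivity)] at hnx
    nlinarith
  rw [dist_eq_norm]
  refine lt_of_le_of_lt (b := 3 * ε / 4) ?_ (by linarith)
  have key : ∀ v : X, ‖v‖ = t → (fderiv ℝ q x' - fderiv ℝ q x) v ≤ ε / 2 * t := by
    intro v hv
    have h3 : ‖q (x + v) - q x - fderiv ℝ q x (x + v - x)‖ ≤ ε / 4 * ‖x + v - x‖ := by
      apply h2
      rw [dist_eq_norm, add_sub_cancel_left, hv]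
      rw [htd]; linarith
    rw [add_sub_cancel_left, hv, Real.norm_eq_abs] at h3
    have h4 := (abs_le.mp h3).2
    have h5 := COne.sub_le hq hd' (x + v)
    have h6 : fderiv ℝ q x' (x + v - x') = fderiv ℝ q x' v - fderiv ℝ q x' (x' - x) := by
      rw [← map_sub]; congr 1; abel
    rw [h6] at h5
    have h7 : fderiv ℝ q x' (x' - x) ≤ b * ‖x' - x‖ :=
      (COne.deriv_le hq hd' _).trans (hq.upper _)
    have h8 : q x ≤ q x' + b * ‖x' - x‖ := by
      have h9 := hq.add x' (x - x')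
      rw [add_sub_cancel] at h9
      have h10 := hq.upper (x - x')
      rw [norm_sub_rev] at h10
      linarith
    rw [ContinuousLinearMap.sub_apply]
    linarith
  have key2 : ∀ v : X, ‖v‖ = t → ‖(fderiv ℝ q x' - fderiv ℝ q x) v‖ ≤ ε / 2 * t := by
    intro v hv
    rw [Real.norm_eq_abs, abs_le]
    constructor
    · have h3 := key (-v) (by rw [norm_neg, hv])
      rw [map_neg] at h3
      linarith
    · exact key v hv
  refine (ContinuousLinearMap.opNorm_le_bound _ (M := ε / 2) (by positivity) fun v => ?_).trans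
    (by linarith)
  by_cases hv : v = 0
  · subst hv; simp
  · have hv0 : 0 < ‖v‖ := norm_pos_iff.mpr hv
    have h3 := key2 ((t / ‖v‖) • v) (by
      rw [norm_smul, norm_div, norm_norm, Real.norm_eq_abs, abs_of_pos ht]
      field_simp)
    rw [map_smul, norm_smul, norm_div, norm_norm, Real.norm_eq_abs, abs_of_pos ht] at h3
    rw [div_mul_eq_mul_div, div_le_iff₀ hv0] at h3
    have h4 : t * ‖(fderiv ℝ q x' - fderiv ℝ q x) v‖ ≤ t * (ε / 2 * ‖v‖) := by linarith
    exact le_of_mul_le_mul_left h4 ht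

end Pool.Agent.Helper74.Cons
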