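import Pool.Agent.Helper74.Rsd.Nm

/-! The space of equivalent norms is a Baire space (elementary form). -/

set_option autoImplicit false

open scoped Topology
open Filter Set

namespace Pool.Agent.Helper74.Cons

open Pool.Agent.Helper74.Rsd

namespace Baire

variable {X : Type*} [NormedAddCommGroup X] [NormedSpace ℝ X]

theorem isOpen_ball (p : Nm X) (r : ℝ) :
    @IsOpen _ (topNm X) {q : Nm X | ∃ c < r, ∀ y, |p.1 y - q.1 y| ≤ c * ‖y‖} := by
  intro q hq
  obtain ⟨c, hc, h⟩ := hq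
  refine ⟨(r - c) / 2, by linarith, fun q' hq' => ⟨(r + c) / 2, by linarith, fun y => ?_⟩⟩
  have h1 := h y
  have h2 := hq' y
  have h3 : |p.1 y - q'.1 y| ≤ |p.1 y - q.1 y| + |q.1 y - q'.1 y| := abs_sub_le _ _ _
  calc |p.1 y - q'.1 y| ≤ c * ‖y‖ + (r - c) / 2 * ‖y‖ := by linarith
    _ = (r + c) / 2 * ‖y‖ := by ring

theorem step (U : ℕ → Set (Nm X)) (hU1 : ∀ n, @IsOpen _ (topNm X) (U n))
    (hU2 : ∀ n, @Dense _ (topNm X) (U n)) (n : ℕ) (s : Nm X × Ioi (0 : ℝ)) :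
    ∃ s' : Nm X × Ioi (0 : ℝ), (∀ y, |s.1.1 y - s'.1.1 y| ≤ (s.2 : ℝ) / 4 * ‖y‖) ∧
      (s'.2 : ℝ) ≤ (s.2 : ℝ) / 4 ∧
      ∀ q' : Nm X, (∀ y, |s'.1.1 y - q'.1 y| ≤ (s'.2 : ℝ) * ‖y‖) → q' ∈ U n := by
  obtain ⟨p, r, hr⟩ := s
  have hr' : (0 : ℝ) < r := hr
  have hne : {q : Nm X | ∃ c < r / 4, ∀ y, |p.1 y - q.1 y| ≤ c * ‖y‖}.Nonempty :=
    ⟨p, 0, by linarith, fun y => by simp⟩
  obtain ⟨q, ⟨c, hc, hcq⟩, hqU⟩ :=
    @Dense.inter_open_nonempty _ (topNm X) _ (hU2 n) _ (isOpen_ball p (r / 4)) hne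
  obtain ⟨ε, hε, hεq⟩ := hU1 n q hqU
  have hmin : 0 < min ε (r / 4) := lt_min hε (by linarith)
  refine ⟨(q, ⟨min ε (r / 4), hmin⟩), fun y => ?_, min_le_right _ _, fun q' hq' => hεq q' fun y => ?_⟩
  · exact (hcq y).trans (mul_le_mul_of_nonneg_right hc.le (norm_nonneg _))
  · exact (hq' y).trans (mul_le_mul_of_nonneg_right (min_le_left _ _) (norm_nonneg _))

end Baire

theorem baire_Nm {X : Type*} [NormedAddCommGroup X] [NormedSpace ℝ X] (U : ℕ → Set (Nm X))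
    (hU1 : ∀ n, @IsOpen _ (topNm X) (U n)) (hU2 : ∀ n, @Dense _ (topNm X) (U n))
    (p : Nm X) (ε : ℝ) (hε : 0 < ε) :
    ∃ q : Nm X, (∀ n, q ∈ U n) ∧ ∀ y, |p.1 y - q.1 y| ≤ ε * ‖y‖ := by
  choose nxt hn1 hn2 hn3 using Baire.step U hU1 hU2
  obtain ⟨a, b, hp⟩ := p.2
  have hr0 : (0 : ℝ) < min ε a := lt_min hε hp.a_pos
  set S : ℕ → Nm X × Ioi (0 : ℝ) := fun n => Nat.rec (p, ⟨min ε a, hr0⟩) (fun n s => nxt n s) n
    with hS
  have hS0 : S 0 = (p, ⟨min ε a, hr0⟩) := rfl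
  have hSs : ∀ n, S (n + 1) = nxt n (S n) := fun n => rfl
  have hr : ∀ n, 0 < ((S n).2 : ℝ) := fun n => (S n).2.2
  -- the radii decrease
  have hrs : ∀ n, ((S (n + 1)).2 : ℝ) ≤ ((S n).2 : ℝ) / 4 := fun n => by
    rw [hSs]; exact hn2 n (S n)
  have hgeo : ∀ n, ((S n).2 : ℝ) ≤ min ε a * (1 / 4) ^ n := by
    intro n
    induction n with
    | zero => simp [hS0]
    | succ n ih =>
      calc ((S (n + 1)).2 : ℝ) ≤ ((S n).2 : ℝ) / 4 := hrs n
        _ ≤ min ε a * (1 / 4) ^ n / 4 := by linarith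
        _ = min ε a * (1 / 4) ^ (n + 1) := by ring
  -- the distances
  have hd : ∀ (m n : ℕ) (y : X), |(S n).1.1 y - (S (n + m)).1.1 y| ≤ ((S n).2 : ℝ) / 2 * ‖y‖ := by
    intro m
    induction m with
    | zero =>
      intro n y
      have h1 := hr n
      simp only [add_zero, sub_self, abs_zero]
      positivity
    | succ m ih =>
      intro n y
      have h1 := hn1 n (S n) y
      rw [← hSs] at h1
      have h2 := ih (n + 1) y
      have h3 := hrs n
      have h4 : n + 1 + m = n + (m + 1) := by ring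
      rw [h4] at h2
      have h5 : |(S n).1.1 y - (S (n + (m + 1))).1.1 y| ≤
          |(S n).1.1 y - (S (n + 1)).1.1 y| + |(S (n + 1)).1.1 y - (S (n + (m + 1))).1.1 y| :=
        abs_sub_le _ _ _
      have h6 : ((S (n + 1)).2 : ℝ) / 2 * ‖y‖ ≤ ((S n).2 : ℝ) / 4 / 2 * ‖y‖ :=
        mul_le_mul_of_nonneg_right (by linarith) (norm_nonneg _)
      have h7 := hr n
      have h8 : 0 ≤ ((S n).2 : ℝ) * ‖y‖ := by positivity
      nlinarith [norm_nonneg y]
  have hlim0 : ∀ y : X, Tendsto (fun n => min ε a * (1 / 4) ^ n / 2 * ‖y‖) atTop (𝓝 0) := by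
    intro y
    have h1 : Tendsto (fun n : ℕ => ((1 : ℝ) / 4) ^ n) atTop (𝓝 0) :=
      tendsto_pow_atTop_nhds_zero_of_lt_one (by norm_num) (by norm_num)
    have h2 := ((h1.const_mul (min ε a)).div_const 2).mul_const ‖y‖
    simpa using h2
  have hcau : ∀ y : X, CauchySeq fun n => (S n).1.1 y := by
    intro y
    refine cauchySeq_of_le_tendsto_0' (fun n => min ε a * (1 / 4) ^ n / 2 * ‖y‖) ?_ (hlim0 y)
    intro n m hnm
    obtain ⟨k, rfl⟩ := Nat.exists_eq_add_of_le hnm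
    rw [Real.dist_eq]
    refine (hd k n y).trans (mul_le_mul_of_nonneg_right ?_ (norm_nonneg _))
    have := hgeo n
    linarith
  choose q hq using fun y => cauchySeq_tendsto_of_complete (hcau y)
  have hclose : ∀ (n : ℕ) (y : X), |(S n).1.1 y - q y| ≤ ((S n).2 : ℝ) / 2 * ‖y‖ := by
    intro n y
    have h1 : Tendsto (fun m => (S (n + m)).1.1 y) atTop (𝓝 (q y)) := by
      have := (tendsto_add_atTop_iff_nat (f := fun m => (S m).1.1 y) n).2 (hq y)
      simpa [add_comm] using this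
    have h2 : Tendsto (fun m => |(S n).1.1 y - (S (n + m)).1.1 y|) atTop
        (𝓝 |(S n).1.1 y - q y|) := (tendsto_const_nhds.sub h1).abs
    exact le_of_tendsto' h2 fun m => hd m n y
  have hmin1 : min ε a ≤ ε := min_le_left _ _
  have hmin2 : min ε a ≤ a := min_le_right _ _
  have hclose0 : ∀ y : X, |p.1 y - q y| ≤ min ε a / 2 * ‖y‖ := fun y => by
    have := hclose 0 y
    simpa [hS0] using this
  have ha := hp.a_pos
  have hb := hp.b_pos
  have hqn : IsEqNorm q (a / 2) (b + a) := by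
    refine ⟨fun x y => ?_, fun c x => ?_, by linarith, by linarith, fun x => ?_, fun x => ?_⟩
    · refine le_of_tendsto_of_tendsto' (hq (x + y)) ((hq x).add (hq y)) fun n => ?_
      obtain ⟨a', b', h'⟩ := (S n).1.2
      exact h'.add x y
    · refine tendsto_nhds_unique (hq (c • x)) ?_
      refine ((hq x).const_mul |c|).congr fun n => ?_
      obtain ⟨a', b', h'⟩ := (S n).1.2
      exact (h'.smul c x).symm
    · have h1 := (abs_le.1 (hclose0 x)).2
      have h2 := hp.lower x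
      have h3 : min ε a / 2 * ‖x‖ ≤ a / 2 * ‖x‖ :=
        mul_le_mul_of_nonneg_right (by linarith) (norm_nonneg _)
      have h4 : a / 2 * ‖x‖ = a * ‖x‖ - a / 2 * ‖x‖ := by ring
      linarith
    · have h1 := (abs_le.1 (hclose0 x)).1
      have h2 := hp.upper x
      have h3 : min ε a / 2 * ‖x‖ ≤ a * ‖x‖ :=
        mul_le_mul_of_nonneg_right (by linarith) (norm_nonneg _)
      have h4 : (b + a) * ‖x‖ = b * ‖x‖ + a * ‖x‖ := by ring
      linarith
  refine ⟨⟨q, _, _, hqn⟩, fun n => ?_, fun y => ?_⟩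
  · refine hn3 n (S n) ⟨q, _, _, hqn⟩ fun y => ?_
    rw [← hSs]
    have h1 := hr (n + 1)
    refine (hclose (n + 1) y).trans (mul_le_mul_of_nonneg_right (by linarith) (norm_nonneg _))
  · refine (hclose0 y).trans (mul_le_mul_of_nonneg_right (by linarith) (norm_nonneg _))

end Pool.Agent.Helper74.Cons
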