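import Mathlib

/-! `C(W)` for compact `W` as `C₀(W)`; the interval `[0,ω₁]` of ordinals. -/

set_option autoImplicit false

open scoped Topology ZeroAtInfty
open Filter Set

namespace Pool.Agent.Helper74.Cons

namespace Interval

/-- a bounded continuous function on a compact space as a `C₀` function -/
noncomputable def lift {W : Type*} [TopologicalSpace W] [CompactSpace W]
    (y : BoundedContinuousFunction W ℝ) : C₀(W, ℝ) where
  toFun := y
  continuous_toFun := y.continuous
  zero_at_infty' := by simp

theorem norm_lift {W : Type*} [TopologicalSpace W] [CompactSpace W]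
    (y : BoundedContinuousFunction W ℝ) : ‖lift y‖ = ‖y‖ := by
  rw [← ZeroAtInftyContinuousMap.norm_toBCF_eq_norm]
  congr 1

end Interval

/-- `C[0,ω₁]` is `C₀` of its index set -/
theorem exists_iso (W : Type*) [TopologicalSpace W] [CompactSpace W] :
    ∃ T : BoundedContinuousFunction W ℝ →L[ℝ] C₀(W, ℝ), ∀ y, 1 * ‖y‖ ≤ ‖T y‖ := by
  refine ⟨LinearMap.mkContinuous
    { toFun := Interval.lift
      map_add' := fun x y => rfl
      map_smul' := fun c x => rfl } 1 (fun y => ?_), fun y => ?_⟩
  · rw [one_mul]
    exact (Interval.norm_lift y).le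
  · rw [one_mul]
    exact (Interval.norm_lift y).ge

theorem Iic_order : OrderTopology (Set.Iic (Cardinal.aleph.{0} 1).ord) := inferInstance

theorem Iic_compact : CompactSpace (Set.Iic (Cardinal.aleph.{0} 1).ord) := by
  rw [← isCompact_iff_compactSpace]
  rw [← Set.Icc_bot]
  exact isCompact_Icc

end Pool.Agent.Helper74.Cons
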