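import Pool.Agent.Helper74.Rsd.Nm

/-! Locally uniformly rotund norms are residual as soon as there is one. -/

set_option autoImplicit false

open scoped Topology
open Filter Set

namespace Pool.Agent.Helper74.Cons

open Pool.Agent.Helper74.Rsd

/-- locally uniformly rotund norms -/
def IsLUR {X : Type*} [NormedAddCommGroup X] [NormedSpace ℝ X] (N : X → ℝ) : Prop :=
  ∀ x : X, N x = 1 → ∀ ε > (0 : ℝ), ∃ δ > (0 : ℝ), ∀ y : X,
    N y = 1 → 2 - δ < N (x + y) → N (x - y) < ε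

namespace Lur

variable {X : Type*} [NormedAddCommGroup X] [NormedSpace ℝ X]

/-- the gap of the parallelogram inequality -/
def gap (q : X → ℝ) (x y : X) : ℝ := 2 * q x ^ 2 + 2 * q y ^ 2 - q (x + y) ^ 2

theorem nonneg {q : X → ℝ} {a b : ℝ} (hq : IsEqNorm q a b) (x : X) : 0 ≤ q x :=
  (mul_nonneg hq.a_pos.le (norm_nonneg x)).trans (hq.lower x)

theorem neg {q : X → ℝ} {a b : ℝ} (hq : IsEqNorm q a b) (x : X) : q (-x) = q x := by
  have := hq.smul (-1) x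
  simpa using this

theorem sq_le_gap {q : X → ℝ} {a b : ℝ} (hq : IsEqNorm q a b) (x y : X) :
    (q x - q y) ^ 2 ≤ gap q x y := by
  have h1 := hq.add x y
  have h2 := nonneg hq (x + y)
  have h3 : q (x + y) ^ 2 ≤ (q x + q y) ^ 2 := pow_le_pow_left₀ h2 h1 2
  unfold gap
  nlinarith

theorem gap_nonneg {q : X → ℝ} {a b : ℝ} (hq : IsEqNorm q a b) (x y : X) :
    0 ≤ gap q x y := (sq_nonneg _).trans (sq_le_gap hq x y)

theorem gap_of_lur {q : X → ℝ} {a b : ℝ} (hq : IsEqNorm q a b) (h : IsLUR q) (x : X)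
    (hx : x ≠ 0) (ε : ℝ) (hε : 0 < ε) : ∃ δ > (0 : ℝ), ∀ y, gap q x y < δ → q (x - y) < ε := by
  have hr : 0 < q x := lt_of_lt_of_le (mul_pos hq.a_pos (norm_pos_iff.mpr hx)) (hq.lower x)
  set r := q x with hrdef
  obtain ⟨δ', hδ', H⟩ := h (r⁻¹ • x) (by
    rw [hq.smul, abs_of_pos (inv_pos.mpr hr), ← hrdef, inv_mul_cancel₀ hr.ne']) (ε / (2 * r))
    (by positivity)
  obtain ⟨t, ht0, ht1, ht2, ht3⟩ : ∃ t : ℝ, 0 < t ∧ t ≤ r / 2 ∧ t ≤ ε / 2 ∧ 2 * t ≤ r * δ' := by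
    refine ⟨min (r / 2) (min (ε / 2) (r * δ' / 2)), by positivity, min_le_left _ _,
      (min_le_right _ _).trans (min_le_left _ _), ?_⟩
    have := (min_le_right (r / 2) (min (ε / 2) (r * δ' / 2))).trans (min_le_right _ _)
    linarith
  refine ⟨t ^ 2, by positivity, fun y hy => ?_⟩
  have h1 : (r - q y) ^ 2 < t ^ 2 := (sq_le_gap hq x y).trans_lt hy
  have h2 : |r - q y| < t := by
    have := abs_lt_of_sq_lt_sq h1 ht0.le
    exact this
  set s := q y with hsdef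
  have hs : r / 2 < s := by
    have := (abs_lt.mp h2).2
    linarith
  have hs0 : 0 < s := by linarith
  have h3 : 2 * r - t < q (x + y) := by
    by_contra hcon
    push Not at hcon
    have h4 : q (x + y) ^ 2 ≤ (2 * r - t) ^ 2 := pow_le_pow_left₀ (nonneg hq _) hcon 2
    have h5 : r - t < s := by
      have := (abs_lt.mp h2).2
      linarith
    have h6 : (r - t) ^ 2 ≤ s ^ 2 := pow_le_pow_left₀ (by linarith) h5.le 2
    unfold gap at hy
    rw [← hrdef, ← hsdef] at hy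
    nlinarith
  have h4 := H (s⁻¹ • y) (by
    rw [hq.smul, abs_of_pos (inv_pos.mpr hs0), ← hsdef, inv_mul_cancel₀ hs0.ne']) (by
    have e1 : q (r⁻¹ • (x + y)) ≤ q (r⁻¹ • x + s⁻¹ • y) + q ((r⁻¹ - s⁻¹) • y) := by
      have : r⁻¹ • (x + y) = (r⁻¹ • x + s⁻¹ • y) + (r⁻¹ - s⁻¹) • y := by
        rw [smul_add, sub_smul]; abel
      rw [this]
      exact hq.add _ _
    rw [hq.smul, hq.smul, abs_of_pos (inv_pos.mpr hr), ← hsdef] at e1
    have e2 : |r⁻¹ - s⁻¹| * s = |r - s| / r := by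
      rw [← abs_of_pos hs0, ← abs_mul, abs_of_pos hs0, sub_mul, inv_mul_cancel₀ hs0.ne',
        ← abs_of_pos hr, abs_of_pos hr]
      have : r⁻¹ * s - 1 = -((r - s) / r) := by field_simp; ring
      rw [this, abs_neg, abs_div, abs_of_pos hr]
    rw [e2] at e1
    have e3 : (2 * r - t) / r < r⁻¹ * q (x + y) := by
      rw [div_eq_inv_mul]
      exact mul_lt_mul_of_pos_left h3 (inv_pos.mpr hr)
    have e4 : |r - s| / r < t / r := div_lt_div_of_pos_right h2 hr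
    have e5 : (2 * r - t) / r = 2 - t / r := by field_simp
    have e6 : 2 * (t / r) ≤ δ' := by
      rw [← mul_div_assoc, div_le_iff₀ hr]
      linarith
    linarith)
  have h5 : q (x - y) ≤ r * q (r⁻¹ • x - s⁻¹ • y) + |r - s| := by
    have e1 : x - y = r • (r⁻¹ • x - s⁻¹ • y) + (r * s⁻¹ - 1) • y := by
      rw [smul_sub, smul_smul, smul_smul, mul_inv_cancel₀ hr.ne', one_smul, sub_smul, one_smul]
      abel
    have e2 : |r * s⁻¹ - 1| * s = |r - s| := by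
      rw [← abs_of_pos hs0, ← abs_mul, abs_of_pos hs0, sub_mul, mul_assoc,
        inv_mul_cancel₀ hs0.ne', mul_one, one_mul]
    calc q (x - y) = q (r • (r⁻¹ • x - s⁻¹ • y) + (r * s⁻¹ - 1) • y) := by rw [← e1]
      _ ≤ q (r • (r⁻¹ • x - s⁻¹ • y)) + q ((r * s⁻¹ - 1) • y) := hq.add _ _
      _ = _ := by rw [hq.smul, hq.smul, abs_of_pos hr, ← hsdef, e2]
  have h6 : r * q (r⁻¹ • x - s⁻¹ • y) < r * (ε / (2 * r)) := mul_lt_mul_of_pos_left h4 hr
  have h7 : r * (ε / (2 * r)) = ε / 2 := by field_simp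
  linarith

theorem lur_of_gap {q : X → ℝ} {a b : ℝ} (hq : IsEqNorm q a b)
    (h : ∀ x : X, x ≠ 0 → ∀ ε > (0 : ℝ), ∃ δ > (0 : ℝ), ∀ y, gap q x y < δ → q (x - y) < ε) :
    IsLUR q := by
  intro x hx ε hε
  have hx0 : x ≠ 0 := by
    rintro rfl
    rw [Nm.map_zero hq] at hx
    norm_num at hx
  obtain ⟨δ, hδ, H⟩ := h x hx0 ε hε
  refine ⟨δ / 4, by positivity, fun y hy hxy => H y ?_⟩
  unfold gap
  rw [hx, hy]
  have h1 : q (x + y) ≤ 2 := by
    have := hq.add x y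
    linarith
  nlinarith

theorem isEqNorm_sqrt {p N : X → ℝ} {a b a' b' : ℝ} (hp : IsEqNorm p a b)
    (hN : IsEqNorm N a' b') (j : ℝ) (hj : 0 < j) :
    IsEqNorm (fun y => Real.sqrt (p y ^ 2 + N y ^ 2 / j)) a (b + b' / Real.sqrt j) where
  add := by
    intro x y
    have hsj := Real.sqrt_pos.mpr hj
    -- Minkowski
    have hM : ∀ u v w z : ℝ, 0 ≤ u → 0 ≤ v → 0 ≤ w → 0 ≤ z →
        Real.sqrt ((u + w) ^ 2 + (v + z) ^ 2 / j) ≤
        Real.sqrt (u ^ 2 + v ^ 2 / j) + Real.sqrt (w ^ 2 + z ^ 2 / j) := by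
      intro u v w z hu hv hw hz
      have hA : 0 ≤ u ^ 2 + v ^ 2 / j := by positivity
      have hB : 0 ≤ w ^ 2 + z ^ 2 / j := by positivity
      apply Real.sqrt_le_iff.mpr
      refine ⟨by positivity, ?_⟩
      have hC : u * w + v * z / j ≤ Real.sqrt (u ^ 2 + v ^ 2 / j) *
          Real.sqrt (w ^ 2 + z ^ 2 / j) := by
        rw [← Real.sqrt_mul hA]
        apply Real.le_sqrt_of_sq_le
        have : (u ^ 2 + v ^ 2 / j) * (w ^ 2 + z ^ 2 / j) - (u * w + v * z / j) ^ 2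
            = (u * z - v * w) ^ 2 / j := by
          field_simp
          ring
        have h2 : 0 ≤ (u * z - v * w) ^ 2 / j := by positivity
        linarith
      have e1 := Real.sq_sqrt hA
      have e2 := Real.sq_sqrt hB
      have e3 : (u + w) ^ 2 + (v + z) ^ 2 / j = (u ^ 2 + v ^ 2 / j) + (w ^ 2 + z ^ 2 / j)
          + 2 * (u * w + v * z / j) := by
        field_simp
        ring
      rw [e3, add_sq, e1, e2]
      linarith
    refine le_trans (Real.sqrt_le_sqrt ?_) (hM (p x) (N x) (p y) (N y) (nonneg hp x)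
      (nonneg hN x) (nonneg hp y) (nonneg hN y))
    have h1 : p (x + y) ^ 2 ≤ (p x + p y) ^ 2 :=
      pow_le_pow_left₀ (nonneg hp _) (hp.add x y) 2
    have h2 : N (x + y) ^ 2 ≤ (N x + N y) ^ 2 :=
      pow_le_pow_left₀ (nonneg hN _) (hN.add x y) 2
    have h3 := div_le_div_of_nonneg_right h2 hj.le
    linarith
  smul := by
    intro c x
    have : p (c • x) ^ 2 + N (c • x) ^ 2 / j = |c| ^ 2 * (p x ^ 2 + N x ^ 2 / j) := by
      rw [hp.smul, hN.smul]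
      ring
    simp only [this]
    rw [Real.sqrt_mul (by positivity), Real.sqrt_sq (abs_nonneg c)]
  a_pos := hp.a_pos
  b_pos := by
    have h1 := hp.b_pos
    have h2 := hN.b_pos
    have hsj := Real.sqrt_pos.mpr hj
    positivity
  lower := by
    intro x
    apply (hp.lower x).trans
    apply Real.le_sqrt_of_sq_le
    have : 0 ≤ N x ^ 2 / j := by positivity
    linarith
  upper := by
    intro x
    have hsj := Real.sqrt_pos.mpr hj
    have h2 := nonneg hN x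
    have h1 := nonneg hp x
    have h3 : Real.sqrt (p x ^ 2 + N x ^ 2 / j) ≤ p x + N x / Real.sqrt j := by
      apply Real.sqrt_le_iff.mpr
      refine ⟨by positivity, ?_⟩
      have : (p x + N x / Real.sqrt j) ^ 2 = p x ^ 2 + N x ^ 2 / j +
          2 * (p x * (N x / Real.sqrt j)) := by
        have e := Real.sq_sqrt hj.le
        rw [add_sq, div_pow, e]
        ring
      rw [this]
      have : 0 ≤ p x * (N x / Real.sqrt j) := by positivity
      linarith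
    refine h3.trans ?_
    have h4 := hp.upper x
    have h5 := hN.upper x
    have h6 : N x / Real.sqrt j ≤ b' * ‖x‖ / Real.sqrt j := div_le_div_of_nonneg_right h5 hsj.le
    have h7 : (b + b' / Real.sqrt j) * ‖x‖ = b * ‖x‖ + b' * ‖x‖ / Real.sqrt j := by ring
    linarith

theorem abs_sqrt_sub {p N : X → ℝ} {a b a' b' : ℝ} (hp : IsEqNorm p a b)
    (hN : IsEqNorm N a' b') (j : ℝ) (hj : 0 < j) (x : X) :
    |p x - Real.sqrt (p x ^ 2 + N x ^ 2 / j)| ≤ b' / Real.sqrt j * ‖x‖ := by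
  have hsj := Real.sqrt_pos.mpr hj
  have h2 := nonneg hN x
  have h1 := nonneg hp x
  have h3 : Real.sqrt (p x ^ 2 + N x ^ 2 / j) ≤ p x + N x / Real.sqrt j := by
    apply Real.sqrt_le_iff.mpr
    refine ⟨by positivity, ?_⟩
    have : (p x + N x / Real.sqrt j) ^ 2 = p x ^ 2 + N x ^ 2 / j +
        2 * (p x * (N x / Real.sqrt j)) := by
      have e := Real.sq_sqrt hj.le
      rw [add_sq, div_pow, e]
      ring
    rw [this]
    have : 0 ≤ p x * (N x / Real.sqrt j) := by positivity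
    linarith
  have h4 : p x ≤ Real.sqrt (p x ^ 2 + N x ^ 2 / j) := by
    apply Real.le_sqrt_of_sq_le
    have : 0 ≤ N x ^ 2 / j := by positivity
    linarith
  have h5 := hN.upper x
  have h6 : N x / Real.sqrt j ≤ b' * ‖x‖ / Real.sqrt j := div_le_div_of_nonneg_right h5 hsj.le
  have h7 : b' / Real.sqrt j * ‖x‖ = b' * ‖x‖ / Real.sqrt j := by ring
  rw [abs_sub_comm, abs_of_nonneg (by linarith), h7]
  linarith

/-- the open dense sets -/
def U (N : X → ℝ) (n : ℕ) : Set (Nm X) :=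
  {q | ∃ p : Nm X, ∃ j : ℕ, n + 1 ≤ j ∧ ∃ c : ℝ, c < 1 / (j : ℝ) ^ 2 ∧
    ∀ y, |q.1 y ^ 2 - p.1 y ^ 2 - N y ^ 2 / (j : ℝ)| ≤ c * ‖y‖ ^ 2}

theorem isOpen_U (N : X → ℝ) (n : ℕ) : @IsOpen _ (topNm X) (U N n) := by
  rintro q ⟨p, j, hj, c, hc, H⟩
  obtain ⟨a, b, hq⟩ := q.2
  have hb := hq.b_pos
  set e := (1 / (j : ℝ) ^ 2 - c) / 2 with he
  have he0 : 0 < e := by rw [he]; linarith
  refine ⟨min 1 (e / (2 * b + 1)), by positivity, fun q' hq' => ⟨p, j, hj, c + e, by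
    rw [he]; linarith, fun y => ?_⟩⟩
  have h1 := hq' y
  set d := min 1 (e / (2 * b + 1)) with hd
  have hd0 : 0 < d := by positivity
  have hd1 : d ≤ 1 := min_le_left _ _
  have hd2 : d * (2 * b + 1) ≤ e := by
    have : d ≤ e / (2 * b + 1) := min_le_right _ _
    rwa [le_div_iff₀ (by positivity)] at this
  have h2 : |q'.1 y ^ 2 - q.1 y ^ 2| ≤ e * ‖y‖ ^ 2 := by
    have e1 : q'.1 y ^ 2 - q.1 y ^ 2 = (q'.1 y - q.1 y) * (q'.1 y + q.1 y) := by ring
    rw [e1, abs_mul, abs_sub_comm (q'.1 y)]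
    obtain ⟨a', b', hq'n⟩ := q'.2
    have h3 := nonneg hq'n y
    have h4 := nonneg hq y
    have h5 := hq.upper y
    have h6 : q'.1 y ≤ q.1 y + d * ‖y‖ := by
      have := (abs_le.mp h1).1
      linarith
    have h7 : |q'.1 y + q.1 y| ≤ (2 * b + 1) * ‖y‖ := by
      rw [abs_of_nonneg (by linarith)]
      have : d * ‖y‖ ≤ 1 * ‖y‖ := mul_le_mul_of_nonneg_right hd1 (norm_nonneg _)
      linarith
    calc |q.1 y - q'.1 y| * |q'.1 y + q.1 y| ≤ (d * ‖y‖) * ((2 * b + 1) * ‖y‖) :=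
          mul_le_mul h1 h7 (abs_nonneg _) (by positivity)
      _ = d * (2 * b + 1) * ‖y‖ ^ 2 := by ring
      _ ≤ e * ‖y‖ ^ 2 := mul_le_mul_of_nonneg_right hd2 (by positivity)
  have h3 := H y
  have e2 : q'.1 y ^ 2 - p.1 y ^ 2 - N y ^ 2 / (j : ℝ) =
      (q.1 y ^ 2 - p.1 y ^ 2 - N y ^ 2 / (j : ℝ)) + (q'.1 y ^ 2 - q.1 y ^ 2) := by ring
  rw [e2]
  refine (abs_add_le _ _).trans ?_
  linarith [add_mul c e (‖y‖ ^ 2)]

theorem dense_U (N : Nm X) (n : ℕ) : @Dense _ (topNm X) (U N.1 n) := by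
  let _ := topNm X
  rw [dense_iff_inter_open]
  rintro V hV ⟨p, hp⟩
  obtain ⟨ε, hε, H⟩ := hV p hp
  obtain ⟨a, b, hpn⟩ := p.2
  obtain ⟨a', b', hNn⟩ := N.2
  have hb' := hNn.b_pos
  obtain ⟨m, hm⟩ := exists_nat_gt ((b' / ε) ^ 2)
  set j := m + n + 1 with hj
  have hj0 : (0 : ℝ) < j := by rw [hj]; push_cast; positivity
  have hjm : (b' / ε) ^ 2 < j := by
    refine hm.trans_le ?_
    rw [hj]; push_cast
    have : (0 : ℝ) ≤ n := by positivity
    linarith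
  have hsj := Real.sqrt_pos.mpr hj0
  have hbe : b' / Real.sqrt j ≤ ε := by
    have h1 : b' / ε ≤ Real.sqrt j := Real.le_sqrt_of_sq_le hjm.le
    rw [div_le_iff₀ hε] at h1
    rw [div_le_iff₀ hsj]
    linarith
  refine ⟨⟨_, _, _, isEqNorm_sqrt hpn hNn j hj0⟩, H _ fun y => ?_, p, j, by omega, 0,
    by positivity, fun y => ?_⟩
  · exact (abs_sqrt_sub hpn hNn j hj0 y).trans
      (mul_le_mul_of_nonneg_right hbe (norm_nonneg _))
  · have h1 : 0 ≤ p.1 y ^ 2 + N.1 y ^ 2 / (j : ℝ) := by positivity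
    show |Real.sqrt (p.1 y ^ 2 + N.1 y ^ 2 / (j : ℝ)) ^ 2 - p.1 y ^ 2 - N.1 y ^ 2 / (j : ℝ)|
      ≤ 0 * ‖y‖ ^ 2
    rw [Real.sq_sqrt h1]
    simp

end Lur

open Lur in
theorem lur_residual {X : Type*} [NormedAddCommGroup X] [NormedSpace ℝ X] (N : Nm X)
    (hN : IsLUR N.1) :
    ∃ U : ℕ → Set (Nm X), (∀ n, @IsOpen _ (topNm X) (U n)) ∧
      (∀ n, @Dense _ (topNm X) (U n)) ∧ ∀ q, (∀ n, q ∈ U n) → IsLUR q.1 := by
  refine ⟨Lur.U N.1, isOpen_U N.1, dense_U N, fun q hqU => ?_⟩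
  obtain ⟨a, b, hq⟩ := q.2
  obtain ⟨a', b', hNn⟩ := N.2
  have ha := hq.a_pos
  have hb := hq.b_pos
  have ha' := hNn.a_pos
  refine lur_of_gap hq fun x hx ε hε => ?_
  obtain ⟨δ0, hδ0, H⟩ := gap_of_lur hNn hN x hx (a' * ε / b) (by positivity)
  have hqx := nonneg hq x
  obtain ⟨M, hM1, hM2⟩ : ∃ M : ℝ, ‖x‖ ≤ M ∧ (q.1 x + 1) / a ≤ M :=
    ⟨max ‖x‖ ((q.1 x + 1) / a), le_max_left _ _, le_max_right _ _⟩
  have hM0 : 0 ≤ M := (norm_nonneg x).trans hM1
  obtain ⟨n, hn⟩ := exists_nat_gt (16 * M ^ 2 / δ0)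
  obtain ⟨p, j, hj, c, hc, hU⟩ := hqU n
  obtain ⟨ap, bp, hp⟩ := p.2
  have hj0 : (0 : ℝ) < j := by
    have : 0 < j := by omega
    exact_mod_cast this
  have hnj : (n : ℝ) ≤ j := by
    have : n ≤ j := by omega
    exact_mod_cast this
  have hj1 : 16 * M ^ 2 < δ0 * j := by
    have h1 := hn.trans_le hnj
    rw [div_lt_iff₀ hδ0] at h1
    linarith
  refine ⟨min 1 (δ0 / (2 * j)), by positivity, fun y hy => ?_⟩
  have hy1 : gap q.1 x y < 1 := hy.trans_le (min_le_left _ _)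
  have hy2 : gap q.1 x y < δ0 / (2 * j) := hy.trans_le (min_le_right _ _)
  have hyM : ‖y‖ ≤ M := by
    refine le_trans ?_ hM2
    rw [le_div_iff₀ ha]
    have h1 : (q.1 x - q.1 y) ^ 2 < 1 := (sq_le_gap hq x y).trans_lt hy1
    have h2 : |q.1 x - q.1 y| < 1 := by
      rw [← abs_one, ← sq_lt_sq]
      simpa using h1
    have h3 := (abs_lt.mp h2).1
    have h4 := hq.lower y
    linarith
  have hxyM : ‖x + y‖ ≤ 2 * M := (norm_add_le x y).trans (by linarith)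
  have hgN : gap N.1 x y < δ0 := by
    have e1 : ∀ z, |q.1 z ^ 2 - p.1 z ^ 2 - N.1 z ^ 2 / (j : ℝ)| ≤ 1 / (j : ℝ) ^ 2 * ‖z‖ ^ 2 :=
      fun z => (hU z).trans (mul_le_mul_of_nonneg_right hc.le (by positivity))
    have ex := (abs_le.mp (e1 x)).1
    have ey := (abs_le.mp (e1 y)).1
    have exy := (abs_le.mp (e1 (x + y))).2
    have hx2 : ‖x‖ ^ 2 ≤ M ^ 2 := pow_le_pow_left₀ (norm_nonneg _) hM1 2
    have hy2' : ‖y‖ ^ 2 ≤ M ^ 2 := pow_le_pow_left₀ (norm_nonneg _) hyM 2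
    have hxy2 : ‖x + y‖ ^ 2 ≤ (2 * M) ^ 2 := pow_le_pow_left₀ (norm_nonneg _) hxyM 2
    have hgp := gap_nonneg hp x y
    have h1 : gap N.1 x y / j ≤ gap q.1 x y + 1 / (j : ℝ) ^ 2 * (8 * M ^ 2) := by
      have h2 : gap N.1 x y / j = 2 * (N.1 x ^ 2 / j) + 2 * (N.1 y ^ 2 / j)
          - N.1 (x + y) ^ 2 / j := by
        unfold gap; ring
      have h3 : 1 / (j : ℝ) ^ 2 * (2 * ‖x‖ ^ 2 + 2 * ‖y‖ ^ 2 + ‖x + y‖ ^ 2) ≤
          1 / (j : ℝ) ^ 2 * (8 * M ^ 2) := by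
        apply mul_le_mul_of_nonneg_left _ (by positivity)
        nlinarith
      rw [h2]
      unfold gap at hgp ⊢
      linarith
    have h2 : gap N.1 x y ≤ (gap q.1 x y + 1 / (j : ℝ) ^ 2 * (8 * M ^ 2)) * j := by
      rwa [div_le_iff₀ hj0] at h1
    have h3 : (gap q.1 x y + 1 / (j : ℝ) ^ 2 * (8 * M ^ 2)) * j =
        gap q.1 x y * j + 8 * M ^ 2 / j := by
      field_simp
    have h4 : gap q.1 x y * j < δ0 / 2 := by
      rw [lt_div_iff₀ (by positivity)] at hy2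
      linarith
    have h5 : 8 * M ^ 2 / j < δ0 / 2 := by
      rw [div_lt_iff₀ hj0]
      linarith
    linarith
  have h8 := H y hgN
  have h9 := hNn.lower (x - y)
  have h10 := hq.upper (x - y)
  have h11 : ‖x - y‖ < ε / b := by
    have : a' * ‖x - y‖ < a' * (ε / b) := by
      calc a' * ‖x - y‖ ≤ N.1 (x - y) := h9
        _ < a' * ε / b := h8
        _ = a' * (ε / b) := by ring
    exact lt_of_mul_lt_mul_left this ha'.le
  rw [lt_div_iff₀ hb] at h11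
  linarith

end Pool.Agent.Helper74.Cons
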