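import Mathlib

/-!
A concrete well order of type omega_1, and convergent sequences along which a bounded lower
semicontinuous function on such an order converges to its value at the limit.
-/

set_option autoImplicit false

open scoped Topology
open Filter Set

namespace Pool.Agent.Helper74.Cons

/-- a concrete well order of type ω₁ in `Type` -/
theorem exists_omega1 : ∃ (W : Type) (_ : LinearOrder W) (_ : WellFoundedLT W),
    Uncountable W ∧ ∀ α : W, (Iic α).Countable := by
  refine ⟨(Cardinal.aleph.{0} 1).ord.ToType, inferInstance, inferInstance, ?_, ?_⟩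
  · rw [← Cardinal.aleph0_lt_mk_iff, Cardinal.mk_ord_toType]
    exact Cardinal.aleph0_lt_aleph_one
  · intro α
    have h1 : (Iio α).Countable := by
      rw [← Cardinal.le_aleph0_iff_set_countable]
      have h := Cardinal.mk_Iio_lt α (by simp)
      have h2 : Cardinal.mk (Cardinal.aleph.{0} 1).ord.ToType = Order.succ Cardinal.aleph0 := by
        rw [Cardinal.mk_ord_toType, Cardinal.succ_aleph0]
      exact Order.lt_succ_iff.1 (h.trans_eq h2)
    rw [← Iio_insert]
    exact h1.insert α

namespace Omega1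

theorem exists_gt {W : Type*} [LinearOrder W] [Uncountable W]
    (hW : ∀ α : W, (Iic α).Countable) (s : ℕ → W) : ∃ θ, ∀ n, s n < θ := by
  by_contra hc
  push Not at hc
  have : (univ : Set W) = ⋃ n, Iic (s n) := by
    ext x
    simp only [mem_univ, mem_iUnion, mem_Iic, true_iff]
    exact hc x
  have h2 : (univ : Set W).Countable := by
    rw [this]
    exact countable_iUnion fun n => hW (s n)
  exact Set.not_countable_univ h2

end Omega1

/-- a real function on ω₁ that is bounded and lower semicontinuous is asymptotically constant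
along some convergent strictly increasing sequence -/
theorem lsc_seq (W : Type*) [LinearOrder W] [WellFoundedLT W] [Uncountable W]
    [TopologicalSpace W] [OrderTopology W] (hW : ∀ α : W, (Iic α).Countable) (φ : W → ℝ)
    (hφ : ∃ C, ∀ α, |φ α| ≤ C) (hl : LowerSemicontinuous φ) :
    ∃ (α : ℕ → W) (β : W), (∀ n, α n < β) ∧ Tendsto α atTop (𝓝 β) ∧
      Tendsto (fun n => φ (α n)) atTop (𝓝 (φ β)) := by
  obtain ⟨C, hC⟩ := hφ
  have hb := fun s : ℕ → W => Omega1.exists_gt hW s
  -- the set of values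
  set S : Set ℝ := {s | ∀ θ, ∃ α, θ < α ∧ φ α < s} with hS
  have hSne : S.Nonempty := by
    refine ⟨C + 1, fun θ => ?_⟩
    obtain ⟨α, hα⟩ := hb fun _ => θ
    refine ⟨α, hα 0, ?_⟩
    have := (abs_le.1 (hC α)).2
    linarith
  obtain ⟨w⟩ : Nonempty W := inferInstance
  have hSb : BddBelow S := by
    refine ⟨-C, fun s hs => ?_⟩
    obtain ⟨α, _, hα⟩ := hs w
    have := (abs_le.1 (hC α)).1
    linarith
  set r := sInf S with hr
  have hlow : ∀ n : ℕ, ∃ θ, ∀ α, θ < α → r - 1 / ((n : ℝ) + 1) ≤ φ α := by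
    intro n
    by_contra hc
    push Not at hc
    have h1 : r - 1 / ((n : ℝ) + 1) ∈ S := fun θ => hc θ
    have h2 := csInf_le hSb h1
    have h3 : 0 < 1 / ((n : ℝ) + 1) := by positivity
    linarith
  choose θ hθ using hlow
  obtain ⟨θ0, hθ0⟩ := hb θ
  have hge : ∀ α, θ0 < α → r ≤ φ α := by
    intro α hα
    refine le_of_forall_pos_lt_add ?_
    intro ε hε
    obtain ⟨n, hn⟩ := exists_nat_one_div_lt hε
    have := hθ n α ((hθ0 n).trans hα)
    linarith
  have hup : ∀ (n : ℕ) (θ : W), ∃ α, θ < α ∧ φ α < r + 1 / ((n : ℝ) + 1) := by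
    intro n θ
    have h3 : r < r + 1 / ((n : ℝ) + 1) := by
      have : 0 < 1 / ((n : ℝ) + 1) := by positivity
      linarith
    obtain ⟨s, hs, hs2⟩ := exists_lt_of_csInf_lt hSne h3
    obtain ⟨α, hα, hα2⟩ := hs θ
    exact ⟨α, hα, hα2.trans hs2⟩
  choose g hg1 hg2 using hup
  -- the sequence
  let α : ℕ → W := fun n => Nat.rec (g 0 θ0) (fun k a => g (k + 1) a) n
  have hα0 : α 0 = g 0 θ0 := rfl
  have hαs : ∀ n, α (n + 1) = g (n + 1) (α n) := fun n => rfl
  have hmono : StrictMono α := strictMono_nat_of_lt_succ fun n => by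
    rw [hαs]
    exact hg1 _ _
  have hαgt : ∀ n, θ0 < α n := by
    intro n
    refine lt_of_lt_of_le ?_ (hmono.monotone (Nat.zero_le n))
    rw [hα0]
    exact hg1 _ _
  have hαup : ∀ n, φ (α n) < r + 1 / ((n : ℝ) + 1) := by
    intro n
    cases n with
    | zero => rw [hα0]; exact hg2 0 _
    | succ k => rw [hαs]; exact hg2 (k + 1) _
  obtain ⟨β', hβ'⟩ := hb α
  obtain ⟨β, hβ, hmin⟩ := WellFounded.has_min (wellFounded_lt (α := W))
    {x | ∀ n, α n < x} ⟨β', hβ'⟩
  have hlub : IsLUB (range α) β := by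
    constructor
    · rintro _ ⟨n, rfl⟩
      exact (hβ n).le
    · intro x hx
      by_contra hc
      refine hmin x ?_ (not_le.1 hc)
      intro n
      exact (hmono (Nat.lt_succ_self n)).trans_le (hx ⟨n + 1, rfl⟩)
  have htend : Tendsto α atTop (𝓝 β) := tendsto_atTop_isLUB hmono.monotone hlub
  have hβr : r ≤ φ β := hge β ((hαgt 0).trans (hβ 0))
  have hβr2 : φ β ≤ r := by
    by_contra hc
    push Not at hc
    set s := (r + φ β) / 2 with hs
    have h1 : s < φ β := by rw [hs]; linarith
    have h2 : ∀ᶠ x in 𝓝 β, s < φ x := hl β s h1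
    have h3 := htend.eventually h2
    have h4 : ∀ᶠ n : ℕ in atTop, 1 / ((n : ℝ) + 1) < s - r := by
      have h5 : 0 < s - r := by rw [hs]; linarith
      exact (tendsto_one_div_add_atTop_nhds_zero_nat (𝕜 := ℝ)).eventually_lt_const h5
    obtain ⟨n, hn1, hn2⟩ := (h3.and h4).exists
    have := hαup n
    linarith
  have hβe : φ β = r := le_antisymm hβr2 hβr
  refine ⟨α, β, hβ, htend, ?_⟩
  rw [hβe]
  have hz := tendsto_one_div_add_atTop_nhds_zero_nat (𝕜 := ℝ)
  refine tendsto_of_tendsto_of_tendsto_of_le_of_le tendsto_const_nhds (h := fun n : ℕ => r + 1 / ((n : ℝ) + 1)) ?_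
    (fun n => hge _ (hαgt n)) (fun n => (hαup n).le)
  simpa using tendsto_const_nhds.add hz

end Pool.Agent.Helper74.Cons
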