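import Mathlib
import Pool.Agent.Helper74.Rsd.Omega
import Pool.Agent.Helper74.Cons.Omega1

/-!
`C₀(ω₁)` has no equivalent norm with locally uniformly rotund dual norm (project G, module G-5).
-/

set_option autoImplicit false

open scoped Topology ZeroAtInfty
open Filter Set

namespace Pool.Agent.Helper74.Cons

open Pool.Agent.Helper74.Rsd

namespace NoDual

theorem abs_apply_le {W : Type*} [TopologicalSpace W] (x : C₀(W, ℝ)) (α : W) : |x α| ≤ ‖x‖ := by
  have h := BoundedContinuousFunction.norm_coe_le_norm x.toBCF α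
  rw [ZeroAtInftyContinuousMap.norm_toBCF_eq_norm] at h
  exact h

/-- evaluation at a point -/
noncomputable def ev {W : Type*} [TopologicalSpace W] (α : W) : C₀(W, ℝ) →L[ℝ] ℝ :=
  LinearMap.mkContinuous
    { toFun := fun x => x α
      map_add' := fun x y => rfl
      map_smul' := fun c x => rfl } 1 (fun x => by
        simpa using abs_apply_le x α)

theorem ev_apply {W : Type*} [TopologicalSpace W] (α : W) (x : C₀(W, ℝ)) : ev α x = x α := rfl

theorem exists_ind {W : Type*} [LinearOrder W] [WellFoundedLT W] [TopologicalSpace W]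
    [OrderTopology W] (α β : W) (h : α < β) :
    ∃ x : C₀(W, ℝ), ‖x‖ ≤ 1 ∧ x α = 0 ∧ x β = 1 := by
  have hclo : IsClopen (Ioc α β) := by
    have h1 : IsClopen (Iic β) := ⟨isClosed_Iic, isOpen_Iic_W β⟩
    have h2 : IsClopen (Iic α) := ⟨isClosed_Iic, isOpen_Iic_W α⟩
    have h3 : Ioc α β = Iic β \ Iic α := by
      ext t
      simp [and_comm]
    rw [h3]
    exact h1.diff h2
  have hcont : Continuous ((Ioc α β).indicator (fun _ => (1 : ℝ))) := by
    refine continuous_const.indicator ?_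
    intro a ha
    rw [hclo.frontier_eq] at ha
    exact absurd ha (notMem_empty a)
  let x : C₀(W, ℝ) :=
    { toFun := (Ioc α β).indicator (fun _ => (1 : ℝ))
      continuous_toFun := hcont
      zero_at_infty' := by
        refine tendsto_const_nhds.congr' ?_
        have h1 : (Iic β)ᶜ ∈ cocompact W := (isCompact_Iic_W β).compl_mem_cocompact
        filter_upwards [h1] with t ht
        rw [indicator_of_notMem]
        intro hc
        exact ht hc.2 }
  have hx : ∀ t, x t = (Ioc α β).indicator (fun _ => (1 : ℝ)) t := fun t => rfl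
  refine ⟨x, ?_, ?_, ?_⟩
  · rw [← ZeroAtInftyContinuousMap.norm_toBCF_eq_norm]
    refine (BoundedContinuousFunction.norm_le zero_le_one).2 fun t => ?_
    change ‖x t‖ ≤ 1
    rw [hx]
    by_cases ht : t ∈ Ioc α β
    · simp [indicator_of_mem ht]
    · simp [indicator_of_notMem ht]
  · rw [hx, indicator_of_notMem]
    intro hc
    exact lt_irrefl _ hc.1
  · rw [hx, indicator_of_mem]
    exact ⟨h, le_rfl⟩

theorem one_le_norm_sub {W : Type*} [LinearOrder W] [WellFoundedLT W] [TopologicalSpace W]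
    [OrderTopology W] (α β : W) (h : α < β) : 1 ≤ ‖ev α - ev β‖ := by
  obtain ⟨x, hx1, hx2, hx3⟩ := exists_ind α β h
  have h1 := (ev α - ev β).le_opNorm x
  rw [sub_apply, ev_apply, ev_apply, hx2, hx3] at h1
  have h2 : ‖ev α - ev β‖ * ‖x‖ ≤ ‖ev α - ev β‖ * 1 :=
    mul_le_mul_of_nonneg_left hx1 (ContinuousLinearMap.opNorm_nonneg _)
  have h3 : ‖(0 : ℝ) - 1‖ = 1 := by norm_num
  rw [h3] at h1
  linarith

end NoDual

open NoDual in
theorem no_dual_lur (W : Type) [LinearOrder W] [WellFoundedLT W] [Uncountable W]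
    [TopologicalSpace W] [OrderTopology W] (hW : ∀ α : W, (Iic α).Countable)
    (p : Seminorm ℝ C₀(W, ℝ))
    (hp : ∃ C : ℝ, 0 < C ∧ ∀ x : C₀(W, ℝ), ‖x‖ ≤ C * p x ∧ p x ≤ C * ‖x‖)
    (N : (C₀(W, ℝ) →L[ℝ] ℝ) → ℝ)
    (hN : ∀ f : C₀(W, ℝ) →L[ℝ] ℝ, N f = ⨆ x : {x : C₀(W, ℝ) // p x ≤ 1}, f x.1) :
    ¬ ∀ (f : C₀(W, ℝ) →L[ℝ] ℝ) (g : ℕ → (C₀(W, ℝ) →L[ℝ] ℝ)),
      Tendsto (fun n : ℕ => 2 * N f ^ 2 + 2 * N (g n) ^ 2 - N (f + g n) ^ 2) atTop (𝓝 0) →
      Tendsto (fun n : ℕ => ‖g n - f‖) atTop (𝓝 0) := by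
  intro hlur
  obtain ⟨C, hC, hp⟩ := hp
  have hx1 : ∀ x : C₀(W, ℝ), p x ≤ 1 → ‖x‖ ≤ C := by
    intro x hx
    have h1 := (hp x).1
    have h2 : C * p x ≤ C * 1 := mul_le_mul_of_nonneg_left hx hC.le
    linarith
  have hbdd : ∀ f : C₀(W, ℝ) →L[ℝ] ℝ,
      BddAbove (Set.range fun x : {x : C₀(W, ℝ) // p x ≤ 1} => f x.1) := by
    intro f
    refine ⟨‖f‖ * C, ?_⟩
    rintro _ ⟨x, rfl⟩
    have h1 := f.le_opNorm x.1
    have h2 : ‖f‖ * ‖x.1‖ ≤ ‖f‖ * C :=
      mul_le_mul_of_nonneg_left (hx1 x.1 x.2) (ContinuousLinearMap.opNorm_nonneg _)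
    have h3 : f x.1 ≤ ‖f x.1‖ := Real.le_norm_self _
    change f x.1 ≤ ‖f‖ * C
    linarith
  have hne : Nonempty {x : C₀(W, ℝ) // p x ≤ 1} := ⟨⟨0, by simp⟩⟩
  have hleN : ∀ (f : C₀(W, ℝ) →L[ℝ] ℝ) (x : C₀(W, ℝ)), p x ≤ 1 → f x ≤ N f := by
    intro f x hx
    rw [hN]
    exact le_ciSup (hbdd f) (⟨x, hx⟩ : {x : C₀(W, ℝ) // p x ≤ 1})
  have hNle : ∀ (f : C₀(W, ℝ) →L[ℝ] ℝ) (c : ℝ), (∀ x, p x ≤ 1 → f x ≤ c) → N f ≤ c := by
    intro f c h
    rw [hN]
    exact ciSup_le fun x => h x.1 x.2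
  have hNnn : ∀ f : C₀(W, ℝ) →L[ℝ] ℝ, 0 ≤ N f := by
    intro f
    have := hleN f 0 (by simp)
    simpa using this
  have hNlt : ∀ (f : C₀(W, ℝ) →L[ℝ] ℝ) (s : ℝ), s < N f → ∃ x, p x ≤ 1 ∧ s < f x := by
    intro f s hs
    by_contra hc
    have h1 : ∀ x, p x ≤ 1 → f x ≤ s := by
      intro x hx
      by_contra hcc
      exact hc ⟨x, hx, not_le.1 hcc⟩
    exact absurd (hNle f s h1) (not_le.2 hs)
  have hNadd : ∀ f g : C₀(W, ℝ) →L[ℝ] ℝ, N (f + g) ≤ N f + N g := by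
    intro f g
    refine hNle _ _ fun x hx => ?_
    rw [add_apply]
    exact add_le_add (hleN f x hx) (hleN g x hx)
  have hφb : ∀ α : W, |N (ev α)| ≤ C := by
    intro α
    rw [abs_of_nonneg (hNnn _)]
    refine hNle _ _ fun x hx => ?_
    rw [ev_apply]
    exact ((le_abs_self _).trans (abs_apply_le x α)).trans (hx1 x hx)
  have hlsc : LowerSemicontinuous fun α : W => N (ev α) := by
    intro β s hs
    obtain ⟨x, hx, hsx⟩ := hNlt (ev β) s hs
    rw [ev_apply] at hsx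
    have h1 : ∀ᶠ t in 𝓝 β, s < x t := (map_continuous x).continuousAt.eventually_const_lt hsx
    filter_upwards [h1] with t ht
    have h2 := hleN (ev t) x hx
    rw [ev_apply] at h2
    exact lt_of_lt_of_le ht h2
  obtain ⟨α, β, hαβ, hα, hφ⟩ := lsc_seq W hW (fun α => N (ev α)) ⟨C, hφb⟩ hlsc
  have hsum : Tendsto (fun n => N (ev β + ev (α n))) atTop (𝓝 (2 * N (ev β))) := by
    refine tendsto_order.2 ⟨fun a ha => ?_, fun a ha => ?_⟩
    · obtain ⟨x, hx, hsx⟩ := hNlt (ev β) (a / 2) (by linarith)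
      rw [ev_apply] at hsx
      have h1 : Tendsto (fun n => x (α n)) atTop (𝓝 (x β)) :=
        ((map_continuous x).tendsto β).comp hα
      filter_upwards [h1.eventually_const_lt hsx] with n hn
      have h2 := hleN (ev β + ev (α n)) x hx
      rw [add_apply, ev_apply, ev_apply] at h2
      linarith
    · have h1 : Tendsto (fun n => N (ev β) + N (ev (α n))) atTop (𝓝 (N (ev β) + N (ev β))) :=
        tendsto_const_nhds.add hφ
      filter_upwards [h1.eventually_lt_const (show N (ev β) + N (ev β) < a by linarith)] with n hn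
      exact lt_of_le_of_lt (hNadd _ _) hn
  have hgap : Tendsto (fun n : ℕ => 2 * N (ev β) ^ 2 + 2 * N (ev (α n)) ^ 2
      - N (ev β + ev (α n)) ^ 2) atTop (𝓝 0) := by
    have h1 : Tendsto (fun n : ℕ => 2 * N (ev β) ^ 2 + 2 * N (ev (α n)) ^ 2
      - N (ev β + ev (α n)) ^ 2) atTop
      (𝓝 (2 * N (ev β) ^ 2 + 2 * N (ev β) ^ 2 - (2 * N (ev β)) ^ 2)) :=
      (tendsto_const_nhds.add ((hφ.pow 2).const_mul 2)).sub (hsum.pow 2)
    have h2 : 2 * N (ev β) ^ 2 + 2 * N (ev β) ^ 2 - (2 * N (ev β)) ^ 2 = 0 := by ring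
    rwa [h2] at h1
  have hlim := hlur (ev β) (fun n => ev (α n)) hgap
  have h1 : ∀ᶠ n in atTop, ‖ev (α n) - ev β‖ < 1 := hlim.eventually_lt_const zero_lt_one
  obtain ⟨n, hn⟩ := h1.exists
  exact absurd (one_le_norm_sub (α n) β (hαβ n)) (not_le.2 hn)

end Pool.Agent.Helper74.Cons
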